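import Mathlib
import Pool.Agent.H23.DM.La3

/-!
(I3) of MP_d9606f_gt, linear algebra (helper93).

`v : ℕ → κ → ℝ` is a sequence of vectors all of whose linear relations are shift invariant (`Rel v`).
`Gm v N` is the Gram matrix of `v 0, .., v (N-1)`, `Sm v m` the matrix with the columns
`v m, .., v (m + D - 1)`, `D = card κ`, and `Mm v m = Sm v m * (pv (Gm v D))ᵀ * (Sm v 0)ᵀ`.
`Mm_mul_Sm`: `Mm v m * Sm v n = Sm v (m + n)`;  `Mm_add`: `Mm v (m + n) = Mm v m * Mm v n`.
-/

open MeasureTheory Filter Matrix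
open scoped Topology

set_option linter.unusedSectionVars false

namespace Pool.Agent.H93.DI

open Pool.Agent.H23.DM

noncomputable section

variable {κ : Type} [Fintype κ] [DecidableEq κ]

/-- All linear relations of the sequence are shift invariant. -/
def Rel (v : ℕ → κ → ℝ) : Prop := ∀ (N : ℕ) (c : ℕ → ℝ),
  ∑ k ∈ Finset.range N, c k • v k = 0 → ∀ m : ℕ, ∑ k ∈ Finset.range N, c k • v (k + m) = 0

/-- Gram matrix. -/
def Gm (v : ℕ → κ → ℝ) (N : ℕ) : Matrix (Fin N) (Fin N) ℝ := fun k l => ∑ i, v k i * v l i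

/-- Matrix of `D` consecutive vectors. -/
def Sm (v : ℕ → κ → ℝ) (m : ℕ) : Matrix κ (Fin (Fintype.card κ)) ℝ := fun i k => v (m + k) i

/-- The shift by `m` on the span. -/
def Mm (v : ℕ → κ → ℝ) (m : ℕ) : Matrix κ κ ℝ :=
  Sm v m * ((pv (Gm v (Fintype.card κ)))ᵀ * (Sm v 0)ᵀ)

theorem Gm_symm (v : ℕ → κ → ℝ) (N : ℕ) : (Gm v N)ᵀ = Gm v N := by
  ext k l
  simp only [Gm, Matrix.transpose_apply]
  exact Finset.sum_congr rfl fun i _ => mul_comm _ _

/-- the quadratic form of the Gram matrix -/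
theorem Gm_quad (v : ℕ → κ → ℝ) (N : ℕ) (c : Fin N → ℝ) :
    c ⬝ᵥ (Gm v N *ᵥ c) = ∑ i, (∑ k : Fin N, c k * v k i) ^ 2 := by
  have e1 : c ⬝ᵥ (Gm v N *ᵥ c) = ∑ k, ∑ l, ∑ i, c k * v k i * (c l * v l i) := by
    simp only [dotProduct, mulVec, Gm, Finset.mul_sum, Finset.sum_mul]
    refine Finset.sum_congr rfl fun k _ => Finset.sum_congr rfl fun l _ =>
      Finset.sum_congr rfl fun i _ => ?_
    ring
  have e2 : ∀ i, (∑ k : Fin N, c k * v k i) ^ 2 = ∑ k, ∑ l, c k * v k i * (c l * v l i) := by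
    intro i
    rw [sq, Finset.sum_mul_sum]
  rw [e1, Finset.sum_congr rfl fun i _ => e2 i]
  conv_rhs => rw [Finset.sum_comm]
  refine Finset.sum_congr rfl fun k _ => ?_
  rw [Finset.sum_comm]

/-- `G c = 0` iff `c` is a relation. -/
theorem Gm_mulVec_eq_zero (v : ℕ → κ → ℝ) (N : ℕ) (c : Fin N → ℝ) :
    Gm v N *ᵥ c = 0 ↔ ∑ k : Fin N, c k • v k = 0 := by
  constructor
  · intro h
    have h1 := Gm_quad v N c
    rw [h, dotProduct_zero] at h1
    ext i
    have h2 : (∑ k : Fin N, c k * v k i) ^ 2 = 0 := by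
      have h3 := (Finset.sum_eq_zero_iff_of_nonneg (fun i _ => sq_nonneg
        (∑ k : Fin N, c k * v k i))).1 h1.symm
      exact h3 i (Finset.mem_univ i)
    rw [Finset.sum_apply]
    simpa using pow_eq_zero_iff (two_ne_zero) |>.1 h2
  · intro h
    ext l
    simp only [mulVec, dotProduct, Gm, Pi.zero_apply, Finset.sum_mul]
    rw [Finset.sum_comm]
    have h1 : ∀ i, ∑ k : Fin N, v l i * v k i * c k = 0 := by
      intro i
      have h2 := congrFun h i
      rw [Finset.sum_apply] at h2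
      simp only [Pi.smul_apply, smul_eq_mul, Pi.zero_apply] at h2
      have h3 : ∑ k : Fin N, v l i * v k i * c k = v l i * ∑ k : Fin N, c k * v k i := by
        rw [Finset.mul_sum]
        exact Finset.sum_congr rfl fun k _ => by ring
      rw [h3, h2, mul_zero]
    rw [Finset.sum_congr rfl fun i _ => h1 i, Finset.sum_const_zero]

private theorem sum_fin_range (v : ℕ → κ → ℝ) (N : ℕ) (c : ℕ → ℝ) (m : ℕ) :
    ∑ k : Fin N, c k • v (k + m) = ∑ k ∈ Finset.range N, c k • v (k + m) :=
  Fin.sum_univ_eq_sum_range (fun k => c k • v (k + m)) N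

private theorem fin_ext (N : ℕ) (c : Fin N → ℝ) : ∃ d : ℕ → ℝ, ∀ k : Fin N, d k = c k := by
  refine ⟨fun k => if h : k < N then c ⟨k, h⟩ else 0, fun k => ?_⟩
  simp

theorem Rel.fin {v : ℕ → κ → ℝ} (h : Rel v) {N : ℕ} {c : Fin N → ℝ}
    (hc : ∑ k : Fin N, c k • v k = 0) (m : ℕ) : ∑ k : Fin N, c k • v (k + m) = 0 := by
  obtain ⟨d, hd⟩ := fin_ext N c
  have h1 : ∑ k ∈ Finset.range N, d k • v k = 0 := by
    have h2 := sum_fin_range v N d 0
    simp only [add_zero] at h2
    rw [← h2, ← hc]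
    exact Finset.sum_congr rfl fun k _ => by rw [hd]
  have h3 := h N d h1 m
  rw [← h3, ← sum_fin_range]
  exact Finset.sum_congr rfl fun k _ => by rw [hd]

/-- some vector is in the span of the previous ones -/
private theorem exists_dep (v : ℕ → κ → ℝ) : ∃ k ≤ Fintype.card κ,
    v k ∈ Submodule.span ℝ (Set.range fun j : Fin k => v j) := by
  by_contra hcon
  push Not at hcon
  have key : ∀ n ≤ Fintype.card κ + 1, LinearIndependent ℝ (fun j : Fin n => v j) := by
    intro n
    induction n with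
    | zero => intro _; exact linearIndependent_empty_type
    | succ n ih =>
      intro hn
      have h1 := ih (by omega)
      have h2 := hcon n (by omega)
      have h3 := linearIndependent_finSnoc.2 ⟨h1, h2⟩
      have h4 : (Fin.snoc (fun j : Fin n => v j) (v n) : Fin (n + 1) → κ → ℝ) =
          fun j : Fin (n + 1) => v j := by
        funext j
        refine Fin.lastCases ?_ (fun i => ?_) j
        · simp
        · simp
      rw [h4] at h3
      exact h3
  have h5 := (key (Fintype.card κ + 1) le_rfl).fintype_card_le_finrank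
  simp at h5

/-- Every vector is a combination of the first `D` ones, with all shifts. -/
theorem Rel.exists_comb {v : ℕ → κ → ℝ} (h : Rel v) (n : ℕ) :
    ∃ C : Fin (Fintype.card κ) → ℝ, ∀ m : ℕ, v (n + m) = ∑ k, C k • v (k + m) := by
  -- it suffices to have the relation for `m = 0`
  have red : v n ∈ Submodule.span ℝ (Set.range fun j : Fin (Fintype.card κ) => v j) →
      ∃ C : Fin (Fintype.card κ) → ℝ, ∀ m : ℕ, v (n + m) = ∑ k, C k • v (k + m) := by
    intro hn
    obtain ⟨C, hC⟩ := (Submodule.mem_span_range_iff_exists_fun ℝ).1 hn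
    refine ⟨C, fun m => ?_⟩
    obtain ⟨d, hd⟩ := fin_ext _ C
    have hsum : ∀ m : ℕ, ∑ k ∈ Finset.range (n + 1 + Fintype.card κ),
        ((if k < Fintype.card κ then d k else 0) - (if k = n then 1 else 0)) • v (k + m) =
        (∑ k, C k • v (k + m)) - v (n + m) := by
      intro m
      simp only [sub_smul, Finset.sum_sub_distrib]
      congr 1
      · have e1 : ∑ k, C k • v (k + m) = ∑ k ∈ Finset.range (Fintype.card κ), d k • v (k + m) := by
          rw [← sum_fin_range]
          exact Finset.sum_congr rfl fun k _ => by rw [hd]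
        rw [e1]
        simp only [ite_smul, zero_smul]
        rw [← Finset.sum_filter]
        refine Finset.sum_congr ?_ fun _ _ => rfl
        ext k
        simp only [Finset.mem_filter, Finset.mem_range]
        omega
      · simp only [ite_smul, zero_smul, one_smul]
        rw [Finset.sum_ite_eq' (Finset.range (n + 1 + Fintype.card κ)) n (fun k => v (k + m))]
        simp only [Finset.mem_range]
        rw [if_pos (by omega)]
    have h0 : ∑ k ∈ Finset.range (n + 1 + Fintype.card κ),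
        ((if k < Fintype.card κ then d k else 0) - (if k = n then 1 else 0)) • v k = 0 := by
      have := hsum 0
      simp only [add_zero] at this
      rw [this, hC, sub_self]
    have h1 := h _ _ h0 m
    rw [hsum m] at h1
    exact (sub_eq_zero.1 h1).symm
  refine red ?_
  clear red
  obtain ⟨k, hk, hvk⟩ := exists_dep v
  obtain ⟨c, hc⟩ := (Submodule.mem_span_range_iff_exists_fun ℝ).1 hvk
  have hmono : Submodule.span ℝ (Set.range fun j : Fin k => v j) ≤
      Submodule.span ℝ (Set.range fun j : Fin (Fintype.card κ) => v j) := by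
    refine Submodule.span_mono ?_
    rintro _ ⟨j, rfl⟩
    exact ⟨⟨j, by omega⟩, rfl⟩
  refine hmono ?_
  -- shifted relation
  obtain ⟨d, hd⟩ := fin_ext _ c
  have hrel : ∀ m : ℕ, v (k + m) = ∑ j : Fin k, c j • v (j + m) := by
    intro m
    have hsum : ∀ m : ℕ, ∑ j ∈ Finset.range (k + 1),
        ((if j < k then d j else 0) - (if j = k then 1 else 0)) • v (j + m) =
        (∑ j : Fin k, c j • v (j + m)) - v (k + m) := by
      intro m
      simp only [sub_smul, Finset.sum_sub_distrib]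
      congr 1
      · have e1 : ∑ j : Fin k, c j • v (j + m) = ∑ j ∈ Finset.range k, d j • v (j + m) := by
          rw [← sum_fin_range]
          exact Finset.sum_congr rfl fun j _ => by rw [hd]
        rw [e1]
        simp only [ite_smul, zero_smul]
        rw [← Finset.sum_filter]
        refine Finset.sum_congr ?_ fun _ _ => rfl
        ext j
        simp only [Finset.mem_filter, Finset.mem_range]
        omega
      · simp only [ite_smul, zero_smul, one_smul]
        rw [Finset.sum_ite_eq' (Finset.range (k + 1)) k (fun j => v (j + m))]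
        simp only [Finset.mem_range]
        rw [if_pos (by omega)]
    have h0 : ∑ j ∈ Finset.range (k + 1),
        ((if j < k then d j else 0) - (if j = k then 1 else 0)) • v j = 0 := by
      have := hsum 0
      simp only [add_zero] at this
      rw [this, hc, sub_self]
    have h1 := h _ _ h0 m
    rw [hsum m] at h1
    exact (sub_eq_zero.1 h1).symm
  induction n using Nat.strong_induction_on with
  | _ n ih =>
    by_cases hn : n < k
    · exact Submodule.subset_span ⟨⟨n, hn⟩, rfl⟩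
    · obtain ⟨m, rfl⟩ := Nat.exists_eq_add_of_le (not_lt.1 hn)
      rw [hrel m]
      refine Submodule.sum_mem _ fun j _ => Submodule.smul_mem _ _ ?_
      exact ih (j + m) (by omega)

theorem mul_rp_self {ι : Type} [Fintype ι] [DecidableEq ι] {G : Matrix ι ι ℝ} (hs : Gᵀ = G) :
    G * rp G = G := by
  have h := congrArg Matrix.transpose (rp_mul G)
  rw [Matrix.transpose_mul, hs, rp_symm] at h
  exact h

theorem rp_eq' {ι : Type} [Fintype ι] [DecidableEq ι] {G : Matrix ι ι ℝ} (hs : Gᵀ = G) :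
    rp G = (pv G)ᵀ * G := by
  have h := congrArg Matrix.transpose (rp_eq G)
  rw [Matrix.transpose_mul, hs, rp_symm] at h
  exact h

/-- The range projection of a symmetric matrix depends only on the kernel. -/
theorem rp_congr_ker {ι : Type} [Fintype ι] [DecidableEq ι] {G G' : Matrix ι ι ℝ} (hs : Gᵀ = G)
    (hs' : G'ᵀ = G') (hk : ∀ c, G *ᵥ c = 0 ↔ G' *ᵥ c = 0) : rp G = rp G' := by
  have key : ∀ {A B : Matrix ι ι ℝ}, Aᵀ = A → Bᵀ = B → (∀ c, A *ᵥ c = 0 → B *ᵥ c = 0) →
      rp B * rp A = rp B := by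
    intro A B hA hB h
    have h1 : B * rp A = B := by
      have h2 : B * (1 - rp A) = 0 := by
        ext i j
        have h3 : A *ᵥ (fun k => (1 - rp A) k j) = 0 := by
          have h4 : A * (1 - rp A) = 0 := by
            rw [Matrix.mul_sub, Matrix.mul_one, mul_rp_self hA, sub_self]
          ext l
          have h5 := congrFun (congrFun h4 l) j
          rw [Matrix.mul_apply] at h5
          simpa [mulVec, dotProduct] using h5
        have h6 := congrFun (h _ h3) i
        rw [Matrix.mul_apply]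
        simpa [mulVec, dotProduct] using h6
      rw [Matrix.mul_sub, Matrix.mul_one] at h2
      exact (sub_eq_zero.1 h2).symm
    rw [rp_eq' hB, Matrix.mul_assoc, h1]
  have h1 := key hs hs' fun c hc => (hk c).1 hc
  have h2 := key hs' hs fun c hc => (hk c).2 hc
  have h3 := congrArg Matrix.transpose h1
  rw [Matrix.transpose_mul, rp_symm, rp_symm] at h3
  rw [← h2, h3]

/-- Sequences related by linear maps in both directions have the same `rp (Gm _ N)`. -/
theorem rp_Gm_congr {v w : ℕ → κ → ℝ} {Φ Ψ : Matrix κ κ ℝ} (h1 : ∀ n, w n = Φ *ᵥ v n)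
    (h2 : ∀ n, v n = Ψ *ᵥ w n) (N : ℕ) : rp (Gm w N) = rp (Gm v N) := by
  have key : ∀ {a b : ℕ → κ → ℝ} {M : Matrix κ κ ℝ}, (∀ n, a n = M *ᵥ b n) → ∀ c : Fin N → ℝ,
      Gm b N *ᵥ c = 0 → Gm a N *ᵥ c = 0 := by
    intro a b M h c hc
    rw [Gm_mulVec_eq_zero] at hc ⊢
    have h3 : ∑ k : Fin N, c k • a k = M *ᵥ (∑ k : Fin N, c k • b k) := by
      rw [Matrix.mulVec_sum]
      refine Finset.sum_congr rfl fun k _ => ?_
      rw [h, Matrix.mulVec_smul]
    rw [h3, hc, Matrix.mulVec_zero]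
  refine rp_congr_ker (Gm_symm w N) (Gm_symm v N) fun c => ⟨key h2 c, key h1 c⟩

/-- Shift invariance of the projections gives shift invariance of the relations. -/
theorem Rel_of_rp {v : ℕ → κ → ℝ}
    (h : ∀ N m : ℕ, rp (Gm (fun n => v (n + m)) N) = rp (Gm v N)) : Rel v := by
  intro N c hc m
  have h1 : Gm v N *ᵥ (fun k : Fin N => c k) = 0 := by
    rw [Gm_mulVec_eq_zero]
    have h2 := sum_fin_range v N c 0
    simp only [add_zero] at h2
    rw [h2, hc]
  have h3 : rp (Gm v N) *ᵥ (fun k : Fin N => c k) = 0 := by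
    rw [rp_eq' (Gm_symm v N), ← mulVec_mulVec, h1, mulVec_zero]
  have h4 : Gm (fun n => v (n + m)) N *ᵥ (fun k : Fin N => c k) = 0 := by
    rw [← h N m] at h3
    rw [← mul_rp_self (Gm_symm (fun n => v (n + m)) N), ← mulVec_mulVec, h3, mulVec_zero]
  rw [Gm_mulVec_eq_zero] at h4
  rw [← sum_fin_range]
  exact h4

theorem Sm_rp {v : ℕ → κ → ℝ} (h : Rel v) (m : ℕ) :
    Sm v m * rp (Gm v (Fintype.card κ)) = Sm v m := by
  have h1 : Sm v m * (1 - rp (Gm v (Fintype.card κ))) = 0 := by
    ext i j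
    have h4 : Gm v (Fintype.card κ) * (1 - rp (Gm v (Fintype.card κ))) = 0 := by
      rw [Matrix.mul_sub, Matrix.mul_one, mul_rp_self (Gm_symm v _), sub_self]
    have h3 : Gm v (Fintype.card κ) *ᵥ (fun k => (1 - rp (Gm v (Fintype.card κ))) k j) = 0 := by
      ext l
      have h5 := congrFun (congrFun h4 l) j
      rw [Matrix.mul_apply] at h5
      simpa [mulVec, dotProduct] using h5
    have h6 := h.fin ((Gm_mulVec_eq_zero v _ _).1 h3) m
    have h7 := congrFun h6 i
    rw [Finset.sum_apply] at h7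
    rw [Matrix.mul_apply, Matrix.zero_apply]
    simp only [Sm]
    have h8 : ∀ k : Fin (Fintype.card κ), v (m + k) i * (1 - rp (Gm v (Fintype.card κ))) k j =
        ((1 - rp (Gm v (Fintype.card κ))) k j • v (k + m)) i := by
      intro k
      rw [Pi.smul_apply, smul_eq_mul, mul_comm, add_comm m]
    rw [Finset.sum_congr rfl fun k _ => h8 k]
    exact h7
  rw [Matrix.mul_sub, Matrix.mul_one] at h1
  exact (sub_eq_zero.1 h1).symm

theorem Mm_mul_Sm_zero {v : ℕ → κ → ℝ} (h : Rel v) (m : ℕ) : Mm v m * Sm v 0 = Sm v m := by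
  have hG : (Sm v 0)ᵀ * Sm v 0 = Gm v (Fintype.card κ) := by
    ext k l
    rw [Matrix.mul_apply]
    simp only [Sm, Gm, Matrix.transpose_apply, zero_add]
  unfold Mm
  rw [Matrix.mul_assoc, Matrix.mul_assoc, hG, ← rp_eq' (Gm_symm v _), Sm_rp h]

theorem Mm_mul_Sm {v : ℕ → κ → ℝ} (h : Rel v) (m n : ℕ) : Mm v m * Sm v n = Sm v (m + n) := by
  choose C hC using h.exists_comb
  let Cm : Matrix (Fin (Fintype.card κ)) (Fin (Fintype.card κ)) ℝ := fun k l => C (n + l) k
  have h1 : ∀ m', Sm v (m' + n) = Sm v m' * Cm := by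
    intro m'
    ext i l
    rw [Matrix.mul_apply]
    simp only [Sm, Cm]
    have h2 := congrFun (hC (n + l) m') i
    rw [Finset.sum_apply] at h2
    rw [show m' + n + (l : ℕ) = n + l + m' by omega, h2]
    refine Finset.sum_congr rfl fun k _ => ?_
    rw [Pi.smul_apply, smul_eq_mul, mul_comm, add_comm m']
  have h3 := h1 0
  rw [zero_add] at h3
  rw [h3, ← Matrix.mul_assoc, Mm_mul_Sm_zero h, h1]

theorem Mm_add {v : ℕ → κ → ℝ} (h : Rel v) (m n : ℕ) : Mm v (m + n) = Mm v m * Mm v n := by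
  rw [show Mm v n = Sm v n * ((pv (Gm v (Fintype.card κ)))ᵀ * (Sm v 0)ᵀ) from rfl,
    ← Matrix.mul_assoc, Mm_mul_Sm h]
  rfl

theorem period_of_Mm {v : ℕ → κ → ℝ} (h : Rel v) {m : ℕ} (hm : Mm v m = Mm v 0) : v m = v 0 := by
  have h1 : Sm v m = Sm v 0 := by
    rw [← Mm_mul_Sm_zero h m, hm, Mm_mul_Sm_zero h]
  funext i
  have hpos : 0 < Fintype.card κ := Fintype.card_pos_iff.2 ⟨i⟩
  have h2 := congrFun (congrFun h1 i) ⟨0, hpos⟩
  simpa [Sm] using h2

/-! ### small semigroups -/

private theorem sq_id {e h : Matrix κ κ ℝ} (h1 : e * h = h) (h2 : h * e = h) (h3 : e * e = e) :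
    (2 : ℝ) • (h - e) = (h * h - e) - (h - e) * (h - e) := by
  rw [Matrix.sub_mul, Matrix.mul_sub, Matrix.mul_sub, h1, h2, h3, two_smul]
  abel

/-- A small multiplicative semigroup with unit is trivial. -/
theorem nss {h : ℕ → Matrix κ κ ℝ} (hadd : ∀ a b, h (a + b) = h a * h b)
    (hb : ∀ t, fn (h t - h 0) ≤ 1 / 2) (t : ℕ) : h t = h 0 := by
  have key : ∀ t, 3 / 2 * fn (h t - h 0) ≤ fn (h (2 * t) - h 0) := by
    intro t
    have e1 : h 0 * h t = h t := by rw [← hadd, zero_add]
    have e2 : h t * h 0 = h t := by rw [← hadd, add_zero]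
    have e3 : h 0 * h 0 = h 0 := by rw [← hadd, add_zero]
    have e4 : h (2 * t) = h t * h t := by rw [← hadd, two_mul]
    have e5 := sq_id e1 e2 e3
    have e6 := congrArg fn e5
    rw [fn_smul, abs_of_pos (by norm_num : (0 : ℝ) < 2), ← e4] at e6
    have e7 := fn_sub_le (h (2 * t) - h 0) ((h t - h 0) * (h t - h 0))
    have e8 := fn_mul_le (h t - h 0) (h t - h 0)
    have e9 := fn_nonneg (h t - h 0)
    have e10 := hb t
    nlinarith
  have key2 : ∀ k : ℕ, (3 / 2) ^ k * fn (h t - h 0) ≤ 1 / 2 := by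
    have key3 : ∀ k : ℕ, (3 / 2) ^ k * fn (h t - h 0) ≤ fn (h (2 ^ k * t) - h 0) := by
      intro k
      induction k with
      | zero => simp
      | succ k ih =>
        have h1 := key (2 ^ k * t)
        rw [← mul_assoc, ← pow_succ'] at h1
        calc (3 / 2 : ℝ) ^ (k + 1) * fn (h t - h 0)
            = 3 / 2 * ((3 / 2) ^ k * fn (h t - h 0)) := by ring
          _ ≤ 3 / 2 * fn (h (2 ^ k * t) - h 0) := by linarith
          _ ≤ _ := h1
    exact fun k => (key3 k).trans (hb _)
  have h0 : fn (h t - h 0) = 0 := by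
    by_contra hne
    have hpos : 0 < fn (h t - h 0) := lt_of_le_of_ne (fn_nonneg _) (Ne.symm hne)
    obtain ⟨k, hk⟩ := pow_unbounded_of_one_lt (1 / 2 / fn (h t - h 0)) (by norm_num : (1 : ℝ) < 3 / 2)
    rw [div_lt_iff₀ hpos] at hk
    exact absurd (key2 k) (not_le.2 hk)
  exact sub_eq_zero.1 (fn_eq_zero.1 h0)

theorem most_all {h : ℕ → Matrix κ κ ℝ} (hadd : ∀ a b, h (a + b) = h a * h b) {t t₀ : ℕ}
    (h1 : fn (h t - h 0) ≤ 1 / 8) (h2 : fn (h (t + t₀) - h 0) ≤ 1 / 8) :
    fn (h t₀ - h 0) ≤ 1 / 2 := by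
  have e1 : h 0 * h t₀ = h t₀ := by rw [← hadd, zero_add]
  have e2 : h t * h 0 = h t := by rw [← hadd, add_zero]
  have e3 : h 0 * h 0 = h 0 := by rw [← hadd, add_zero]
  have e4 : h t₀ - h 0 = ((h (t + t₀) - h 0) - (h t - h 0)) - (h t - h 0) * (h t₀ - h 0) := by
    rw [Matrix.sub_mul, Matrix.mul_sub, Matrix.mul_sub, e1, e2, e3, hadd]
    abel
  have e5 := fn_sub_le ((h (t + t₀) - h 0) - (h t - h 0)) ((h t - h 0) * (h t₀ - h 0))
  rw [← e4] at e5
  have e6 := fn_sub_le (h (t + t₀) - h 0) (h t - h 0)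
  have e7 := fn_mul_le (h t - h 0) (h t₀ - h 0)
  have e8 := fn_nonneg (h t₀ - h 0)
  nlinarith [fn_nonneg (h t - h 0)]

end

end Pool.Agent.H93.DI
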