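import Mathlib
import Pool.Agent.H93.DI.Lin
import Pool.Agent.H23.DM.Le2

/-!
(I3) of MP_d9606f_gt, measure theory (helper93).

`locally_periodic`: a vector valued function `s` whose linear relations along the orbits of `T` are
controlled by an invariance hypothesis is periodic along the orbits of `T ^ (q j)` up to a set of
small measure.
-/

open MeasureTheory Filter Matrix
open scoped Topology ENNReal

set_option linter.unusedSectionVars false

namespace Pool.Agent.H93.DI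

open Pool.Agent.H23.DM

noncomputable section

/-- If all `B t` are small, few points have for some `t₀` a bad point in every pair `t, t + t₀`. -/
theorem many_bad {X : Type} [MeasurableSpace X] (μ : Measure X) {B : ℕ → Set X}
    (hB : ∀ t, MeasurableSet (B t)) {δ : ℝ≥0∞} (h : ∀ t, μ (B t) ≤ δ) (K : ℕ) :
    μ {x | ∃ t₀ ≤ K, ∀ t, x ∈ B t ∨ x ∈ B (t + t₀)} ≤ 4 * δ := by
  classical
  obtain ⟨N, hN⟩ : ∃ N : ℕ, N = 2 * K + 1 := ⟨_, rfl⟩
  let f : X → ℝ≥0∞ := fun x => ∑ t ∈ Finset.range N, (B t).indicator (fun _ => 1) x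
  have hfm : Measurable f :=
    Finset.measurable_sum _ fun t _ => measurable_const.indicator (hB t)
  have hf : ∀ x, f x = ((Finset.range N).filter fun t => x ∈ B t).card := by
    intro x
    simp only [f, Set.indicator_apply]
    rw [Finset.sum_boole]
  have hsub : {x | ∃ t₀ ≤ K, ∀ t, x ∈ B t ∨ x ∈ B (t + t₀)} ⊆ {x | (N : ℝ≥0∞) ≤ 4 * f x} := by
    rintro x ⟨t₀, ht₀, hx⟩
    have h1 : N - t₀ ≤ 2 * ((Finset.range N).filter fun t => x ∈ B t).card := by
      have h2 : Finset.range (N - t₀) ⊆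
          ((Finset.range (N - t₀)).filter fun t => x ∈ B t) ∪
          ((Finset.range (N - t₀)).filter fun t => x ∈ B (t + t₀)) := by
        intro t ht
        rw [Finset.mem_union, Finset.mem_filter, Finset.mem_filter]
        rcases hx t with h3 | h3
        · exact Or.inl ⟨ht, h3⟩
        · exact Or.inr ⟨ht, h3⟩
      have h3 := (Finset.card_le_card h2).trans (Finset.card_union_le _ _)
      rw [Finset.card_range] at h3
      have h4 : ((Finset.range (N - t₀)).filter fun t => x ∈ B t).card ≤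
          ((Finset.range N).filter fun t => x ∈ B t).card := by
        refine Finset.card_le_card fun t ht => ?_
        rw [Finset.mem_filter, Finset.mem_range] at ht ⊢
        exact ⟨by omega, ht.2⟩
      have h5 : ((Finset.range (N - t₀)).filter fun t => x ∈ B (t + t₀)).card ≤
          ((Finset.range N).filter fun t => x ∈ B t).card := by
        refine Finset.card_le_card_of_injOn (fun t => t + t₀) ?_ ?_
        · intro t ht
          have ht' := Finset.mem_filter.1 ht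
          rw [Finset.mem_range] at ht'
          refine Finset.mem_coe.2 (Finset.mem_filter.2 ⟨Finset.mem_range.2 ?_, ht'.2⟩)
          change t + t₀ < N
          omega
        · intro a _ b _ hab
          simpa using hab
      omega
    have h2 : N ≤ 4 * ((Finset.range N).filter fun t => x ∈ B t).card := by omega
    change (N : ℝ≥0∞) ≤ 4 * f x
    rw [hf]
    exact_mod_cast h2
  have hN0 : (N : ℝ≥0∞) ≠ 0 := Nat.cast_ne_zero.2 (by omega)
  have hNt : (N : ℝ≥0∞) ≠ ⊤ := ENNReal.natCast_ne_top N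
  have hmark := mul_meas_ge_le_lintegral (μ := μ) (hfm.const_mul 4) (N : ℝ≥0∞)
  have hint : ∫⁻ x, 4 * f x ∂μ ≤ N * (4 * δ) := by
    rw [lintegral_const_mul _ hfm, lintegral_finsetSum _ fun t _ =>
      measurable_const.indicator (hB t)]
    have h1 : ∑ t ∈ Finset.range N, ∫⁻ x, (B t).indicator (fun _ => (1 : ℝ≥0∞)) x ∂μ ≤ N * δ := by
      have h2 : ∀ t ∈ Finset.range N, ∫⁻ x, (B t).indicator (fun _ => (1 : ℝ≥0∞)) x ∂μ ≤ δ := by
        intro t _
        rw [lintegral_indicator (hB t), setLIntegral_const, one_mul]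
        exact h t
      refine (Finset.sum_le_sum h2).trans ?_
      rw [Finset.sum_const, Finset.card_range, nsmul_eq_mul]
    calc 4 * ∑ t ∈ Finset.range N, ∫⁻ x, (B t).indicator (fun _ => (1 : ℝ≥0∞)) x ∂μ
        ≤ 4 * (N * δ) := by gcongr
      _ = N * (4 * δ) := by ring
  have h3 : (N : ℝ≥0∞) * μ {x | (N : ℝ≥0∞) ≤ 4 * f x} ≤ N * (4 * δ) := hmark.trans hint
  have h4 : μ {x | (N : ℝ≥0∞) ≤ 4 * f x} ≤ 4 * δ :=
    (ENNReal.mul_le_mul_iff_right hN0 hNt).1 h3
  exact (measure_mono hsub).trans h4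

theorem many_bad_all {X : Type} [MeasurableSpace X] (μ : Measure X) {B : ℕ → Set X}
    (hB : ∀ t, MeasurableSet (B t)) {δ : ℝ≥0∞} (h : ∀ t, μ (B t) ≤ δ) :
    μ {x | ∃ t₀, ∀ t, x ∈ B t ∨ x ∈ B (t + t₀)} ≤ 4 * δ := by
  have e : {x | ∃ t₀, ∀ t, x ∈ B t ∨ x ∈ B (t + t₀)} =
      ⋃ K : ℕ, {x | ∃ t₀ ≤ K, ∀ t, x ∈ B t ∨ x ∈ B (t + t₀)} := by
    ext x
    simp only [Set.mem_iUnion]
    constructor
    · rintro ⟨t₀, ht⟩
      exact ⟨t₀, t₀, le_rfl, ht⟩
    · rintro ⟨K, t₀, -, ht⟩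
      exact ⟨t₀, ht⟩
  rw [e, Monotone.measure_iUnion]
  · exact iSup_le fun K => many_bad μ hB h K
  · rintro K K' hKK x ⟨t₀, ht₀, ht⟩
    exact ⟨t₀, ht₀.trans hKK, ht⟩

variable {X κ : Type} [MeasurableSpace X] [Fintype κ] [DecidableEq κ]

/-- the sequence of values along the orbit -/
def orb (T : X → X) (s : X → κ → ℝ) (x : X) (n : ℕ) : κ → ℝ := s (T^[n] x)

theorem orb_shift (T : X → X) (s : X → κ → ℝ) (x : X) (m : ℕ) :
    orb T s (T^[m] x) = fun n => orb T s x (n + m) := by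
  funext n
  simp only [orb]
  rw [← Function.iterate_add_apply]

theorem orb_meas {T : X → X} (hT : Measurable T) {s : X → κ → ℝ}
    (hs : ∀ i, Measurable fun x => s x i) (n : ℕ) (i : κ) : Measurable fun x => orb T s x n i :=
  (hs i).comp (hT.iterate n)

theorem Gm_meas {T : X → X} (hT : Measurable T) {s : X → κ → ℝ}
    (hs : ∀ i, Measurable fun x => s x i) (N : ℕ) : MM fun x => Gm (orb T s x) N := by
  intro k l
  exact Finset.measurable_sum _ fun i _ => (orb_meas hT hs k i).mul (orb_meas hT hs l i)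

/-- Almost every orbit has shift invariant relations. -/
theorem ae_Rel {μ : Measure X} {T : X → X} (hT : MeasurePreserving T μ μ) {s : X → κ → ℝ}
    (hs : ∀ i, Measurable fun x => s x i) (AA : Set (X → X))
    (hinv : ∀ f : X → ℝ, Measurable f → (∃ C : ℝ, ∀ x, |f x| ≤ C) →
      (∀ a ∈ AA, ∀ᵐ x ∂μ, f (a x) = f x) → ∀ᵐ x ∂μ, f (T x) = f x)
    (hlin : ∀ a ∈ AA, ∀ᵐ x ∂μ, ∃ Φ Ψ : Matrix κ κ ℝ, ∀ n : ℕ,
      s (T^[n] (a x)) = Φ *ᵥ s (T^[n] x) ∧ s (T^[n] x) = Ψ *ᵥ s (T^[n] (a x))) :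
    ∀ᵐ x ∂μ, Rel (orb T s x) := by
  have h1 : ∀ N : ℕ, ∀ᵐ x ∂μ, rp (Gm (orb T s (T x)) N) = rp (Gm (orb T s x) N) := by
    intro N
    have h2 : ∀ i j : Fin N, ∀ᵐ x ∂μ, rp (Gm (orb T s (T x)) N) i j = rp (Gm (orb T s x) N) i j := by
      intro i j
      refine hinv (fun x => rp (Gm (orb T s x) N) i j) ((Gm_meas hT.measurable hs N).rp i j)
        ⟨Fintype.card (Fin N), fun x => ?_⟩ ?_
      · exact (abs_entry_le_fn _ i j).trans (fn_proj_le (rp_symm _) (rp_idem _))
      · intro a ha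
        filter_upwards [hlin a ha] with x hx
        obtain ⟨Φ, Ψ, h3⟩ := hx
        have h4 := rp_Gm_congr (v := orb T s x) (w := orb T s (a x)) (fun n => (h3 n).1)
          (fun n => (h3 n).2) N
        rw [h4]
    have h3 : ∀ᵐ x ∂μ, ∀ i j : Fin N, rp (Gm (orb T s (T x)) N) i j = rp (Gm (orb T s x) N) i j := by
      rw [ae_all_iff]
      intro i
      rw [ae_all_iff]
      exact h2 i
    filter_upwards [h3] with x hx
    ext i j
    exact hx i j
  have h2 : ∀ᵐ x ∂μ, ∀ N m : ℕ, rp (Gm (orb T s (T (T^[m] x))) N) = rp (Gm (orb T s (T^[m] x)) N) := by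
    rw [ae_all_iff]
    intro N
    rw [ae_all_iff]
    intro m
    exact (hT.iterate m).quasiMeasurePreserving.ae (h1 N)
  filter_upwards [h2] with x hx
  refine Rel_of_rp fun N m => ?_
  induction m with
  | zero => simp
  | succ m ih =>
    have h3 := hx N m
    rw [← Function.iterate_succ_apply' T m x, orb_shift, orb_shift] at h3
    rw [h3, ih]

/-- **Local periodicity.** -/
theorem locally_periodic {μ : Measure X} [IsProbabilityMeasure μ] {T : X → X}
    (hT : MeasurePreserving T μ μ) {s : X → κ → ℝ}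
    (hs : ∀ i, Measurable fun x => s x i) (AA : Set (X → X))
    (hinv : ∀ f : X → ℝ, Measurable f → (∃ C : ℝ, ∀ x, |f x| ≤ C) →
      (∀ a ∈ AA, ∀ᵐ x ∂μ, f (a x) = f x) → ∀ᵐ x ∂μ, f (T x) = f x)
    (hlin : ∀ a ∈ AA, ∀ᵐ x ∂μ, ∃ Φ Ψ : Matrix κ κ ℝ, ∀ n : ℕ,
      s (T^[n] (a x)) = Φ *ᵥ s (T^[n] x) ∧ s (T^[n] x) = Ψ *ᵥ s (T^[n] (a x)))
    (q : ℕ → ℕ)
    (hcont : ∀ f : X → ℝ, Measurable f → ∀ ε : ℝ, 0 < ε → ∃ j₀, ∀ j, j₀ ≤ j → ∀ t : ℕ,
      μ {x | ε < |f (T^[q j * t] x) - f x|} ≤ ENNReal.ofReal ε) (ε : ℝ) (hε : 0 < ε) :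
    ∃ j, μ {x | ∃ t : ℕ, s (T^[q j * t] x) ≠ s x} ≤ ENNReal.ofReal ε := by
  have hrel := ae_Rel hT hs AA hinv hlin
  have hTm : Measurable T := hT.measurable
  have hG : MM fun x => Gm (orb T s x) (Fintype.card κ) := Gm_meas hTm hs (Fintype.card κ)
  have hGp : MM fun x => pv (Gm (orb T s x) (Fintype.card κ)) := hG.pv
  -- the matrix `R` and its size
  let Cx : X → ℝ := fun x => ∑ k, ∑ j,
    |((pv (Gm (orb T s x) (Fintype.card κ)))ᵀ * (Sm (orb T s x) 0)ᵀ) k j|
  have hCm : Measurable Cx := by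
    refine Finset.measurable_sum _ fun k _ => Finset.measurable_sum _ fun j _ => ?_
    refine continuous_abs.measurable.comp ?_
    simp only [Matrix.mul_apply]
    refine Finset.measurable_sum _ fun l _ => ?_
    exact (hGp l k).mul (orb_meas hTm hs _ _)
  have hC : ∃ C₀ : ℝ, 0 < C₀ ∧ μ {x | C₀ < Cx x} ≤ ENNReal.ofReal (ε / 8) := by
    have h1 : WP μ fun t => {x | Real.exp (1 * t) < Cx x} := WP_of_finite hCm one_pos
    have h2 := (h1.eventually_le_const (u := ENNReal.ofReal (ε / 8))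
      (ENNReal.ofReal_pos.2 (by positivity))).exists
    obtain ⟨t, ht⟩ := h2
    exact ⟨_, Real.exp_pos _, ht⟩
  obtain ⟨C₀, hC₀, hC1⟩ := hC
  obtain ⟨D, hD⟩ : ∃ D : ℕ, D = Fintype.card κ := ⟨_, rfl⟩
  obtain ⟨ε', hε', hε1, hε2⟩ : ∃ ε' : ℝ, 0 < ε' ∧ (D : ℝ) * (ε' * C₀) ≤ 1 / 8 ∧
      (D : ℝ) * (D : ℝ) * ε' ≤ ε / 8 := by
    refine ⟨min (1 / (8 * (D + 1) * C₀)) (ε / (8 * (D * D + 1))), by positivity, ?_, ?_⟩
    · have h1 : min (1 / (8 * ((D : ℝ) + 1) * C₀)) (ε / (8 * (D * D + 1))) * C₀ ≤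
          1 / (8 * (D + 1)) := by
        refine (mul_le_mul_of_nonneg_right (min_le_left _ _) hC₀.le).trans (le_of_eq ?_)
        field_simp
      have h2 : (D : ℝ) * (1 / (8 * (D + 1))) ≤ 1 / 8 := by
        rw [mul_one_div, div_le_div_iff₀ (by positivity) (by norm_num)]
        have : (0 : ℝ) ≤ D := Nat.cast_nonneg D
        linarith
      exact (mul_le_mul_of_nonneg_left h1 (Nat.cast_nonneg D)).trans h2
    · refine (mul_le_mul_of_nonneg_left (min_le_right _ _) (by positivity)).trans ?_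
      rw [mul_div_assoc', div_le_div_iff₀ (by positivity) (by norm_num)]
      nlinarith [mul_nonneg (Nat.cast_nonneg (α := ℝ) D) (Nat.cast_nonneg (α := ℝ) D)]
  -- choose `j`
  have hj : ∀ p : κ × Fin (Fintype.card κ), ∃ j₀, ∀ j, j₀ ≤ j → ∀ t : ℕ,
      μ {x | ε' < |orb T s (T^[q j * t] x) p.2 p.1 - orb T s x p.2 p.1|} ≤ ENNReal.ofReal ε' :=
    fun p => hcont (fun x => orb T s x p.2 p.1) (orb_meas hT.measurable hs p.2 p.1) ε' hε'
  choose j₀ hj₀ using hj
  obtain ⟨j, hjj⟩ : ∃ j, ∀ p, j₀ p ≤ j := ⟨Finset.univ.sup j₀, fun p => Finset.le_sup (Finset.mem_univ p)⟩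
  refine ⟨j, ?_⟩
  let B : ℕ → Set X := fun t => {x | 1 / 8 < fn (Mm (orb T s x) (q j * t) - Mm (orb T s x) 0)}
  have hMm : ∀ m, MM fun x => Mm (orb T s x) m := by
    intro m i l
    simp only [Mm, Matrix.mul_apply]
    refine Finset.measurable_sum _ fun k _ => ?_
    refine (orb_meas hT.measurable hs _ _).mul ?_
    refine Finset.measurable_sum _ fun k' _ => ?_
    exact (hGp k' k).mul (orb_meas hTm hs _ _)
  have hBm : ∀ t, MeasurableSet (B t) := fun t =>
    measurableSet_lt measurable_const ((hMm _).sub (hMm 0)).fn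
  have hBsub : ∀ t, B t ⊆ {x | C₀ < Cx x} ∪ ⋃ p : κ × Fin (Fintype.card κ),
      {x | ε' < |orb T s (T^[q j * t] x) p.2 p.1 - orb T s x p.2 p.1|} := by
    intro t x hx
    by_contra hcon
    rw [Set.mem_union, Set.mem_iUnion] at hcon
    push Not at hcon
    obtain ⟨g1, g2⟩ := hcon
    have g1' : Cx x ≤ C₀ := not_lt.1 g1
    have g2' : ∀ (i : κ) (k : Fin (Fintype.card κ)),
        |Sm (orb T s x) (q j * t) i k - Sm (orb T s x) 0 i k| ≤ ε' := by
      intro i k
      have h1 : |orb T s (T^[q j * t] x) k i - orb T s x k i| ≤ ε' := not_lt.1 (g2 (i, k))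
      rw [orb_shift] at h1
      simp only [Sm, zero_add]
      rw [add_comm (q j * t)]
      exact h1
    have g3 : ∀ i l, |(Mm (orb T s x) (q j * t) - Mm (orb T s x) 0) i l| ≤ ε' * C₀ := by
      intro i l
      have e1 : (Mm (orb T s x) (q j * t) - Mm (orb T s x) 0) i l = ∑ k,
          (Sm (orb T s x) (q j * t) i k - Sm (orb T s x) 0 i k) *
            ((pv (Gm (orb T s x) (Fintype.card κ)))ᵀ * (Sm (orb T s x) 0)ᵀ) k l := by
        simp only [Mm]
        rw [← Matrix.sub_mul, Matrix.mul_apply]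
        rfl
      rw [e1]
      refine (Finset.abs_sum_le_sum_abs _ _).trans ?_
      have e2 : ∀ k, |(Sm (orb T s x) (q j * t) i k - Sm (orb T s x) 0 i k) *
            ((pv (Gm (orb T s x) (Fintype.card κ)))ᵀ * (Sm (orb T s x) 0)ᵀ) k l| ≤
          ε' * ∑ j, |((pv (Gm (orb T s x) (Fintype.card κ)))ᵀ * (Sm (orb T s x) 0)ᵀ) k j| := by
        intro k
        rw [abs_mul]
        refine mul_le_mul (g2' i k) ?_ (abs_nonneg _) hε'.le
        exact Finset.single_le_sum (f := fun j =>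
          |((pv (Gm (orb T s x) (Fintype.card κ)))ᵀ * (Sm (orb T s x) 0)ᵀ) k j|)
          (fun j _ => abs_nonneg _) (Finset.mem_univ l)
      refine (Finset.sum_le_sum fun k _ => e2 k).trans ?_
      rw [← Finset.mul_sum]
      exact mul_le_mul_of_nonneg_left g1' hε'.le
    have g4 := fn_le_of_entries (by positivity) g3
    rw [← hD] at g4
    have g5 : 1 / 8 < fn (Mm (orb T s x) (q j * t) - Mm (orb T s x) 0) := hx
    linarith
  have hBμ : ∀ t, μ (B t) ≤ ENNReal.ofReal (ε / 4) := by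
    intro t
    refine (measure_mono (hBsub t)).trans ((measure_union_le _ _).trans ?_)
    have h1 : μ (⋃ p : κ × Fin (Fintype.card κ),
        {x | ε' < |orb T s (T^[q j * t] x) p.2 p.1 - orb T s x p.2 p.1|}) ≤
        ENNReal.ofReal (ε / 8) := by
      refine (measure_iUnion_fintype_le _ _).trans ?_
      refine (Finset.sum_le_sum fun p _ => hj₀ p j (hjj p) t).trans ?_
      rw [Finset.sum_const, Finset.card_univ, Fintype.card_prod, Fintype.card_fin, nsmul_eq_mul,
        ← hD, ← ENNReal.ofReal_natCast, ← ENNReal.ofReal_mul (by positivity)]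
      refine ENNReal.ofReal_le_ofReal ?_
      push_cast
      exact hε2
    calc μ {x | C₀ < Cx x} + μ (⋃ p : κ × Fin (Fintype.card κ),
          {x | ε' < |orb T s (T^[q j * t] x) p.2 p.1 - orb T s x p.2 p.1|})
        ≤ ENNReal.ofReal (ε / 8) + ENNReal.ofReal (ε / 8) := add_le_add hC1 h1
      _ = ENNReal.ofReal (ε / 4) := by
        rw [← ENNReal.ofReal_add (by positivity) (by positivity)]
        congr 1
        ring
  have hall := many_bad_all μ hBm hBμ
  have hfin : {x | ∃ t : ℕ, s (T^[q j * t] x) ≠ s x} ⊆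
      {x | ¬ Rel (orb T s x)} ∪ {x | ∃ t₀, ∀ t, x ∈ B t ∨ x ∈ B (t + t₀)} := by
    rintro x ⟨t, ht⟩
    by_contra hcon
    rw [Set.mem_union] at hcon
    push Not at hcon
    obtain ⟨g1, g2⟩ := hcon
    have hr : Rel (orb T s x) := not_not.1 g1
    have g3 : ∀ t₀, ∃ t, x ∉ B t ∧ x ∉ B (t + t₀) := by
      intro t₀
      by_contra h1
      push Not at h1
      refine g2 ⟨t₀, fun t => ?_⟩
      by_cases h2 : x ∈ B t
      · exact Or.inl h2
      · exact Or.inr (h1 t h2)
    have hadd : ∀ a b : ℕ, Mm (orb T s x) (q j * (a + b)) =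
        Mm (orb T s x) (q j * a) * Mm (orb T s x) (q j * b) := by
      intro a b
      rw [mul_add, Mm_add hr]
    have hsmall : ∀ t₀, fn (Mm (orb T s x) (q j * t₀) - Mm (orb T s x) (q j * 0)) ≤ 1 / 2 := by
      intro t₀
      obtain ⟨t, h1, h2⟩ := g3 t₀
      have h1' : fn (Mm (orb T s x) (q j * t) - Mm (orb T s x) 0) ≤ 1 / 8 := not_lt.1 h1
      have h2' : fn (Mm (orb T s x) (q j * (t + t₀)) - Mm (orb T s x) 0) ≤ 1 / 8 := not_lt.1 h2
      exact most_all (h := fun t => Mm (orb T s x) (q j * t)) hadd (by simpa using h1')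
        (by simpa using h2')
    have h5 := nss (h := fun t => Mm (orb T s x) (q j * t)) hadd hsmall t
    simp only [mul_zero] at h5
    have h6 := period_of_Mm hr h5
    exact ht h6
  refine (measure_mono hfin).trans ((measure_union_le _ _).trans ?_)
  have h0 : μ {x | ¬ Rel (orb T s x)} = 0 := ae_iff.1 hrel
  rw [h0, zero_add]
  refine hall.trans (le_of_eq ?_)
  rw [show (4 : ℝ≥0∞) = ENNReal.ofReal 4 by norm_num, ← ENNReal.ofReal_mul (by norm_num)]
  congr 1
  ring

end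

end Pool.Agent.H93.DI
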