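import Mathlib
import Pool.Agent.H93.DI.Per
import Pool.Agent.H23.DM.Sp5

/-!
(I3) of MP_d9606f_gt (helper93): equivariant projections are invariant along the root group.

`periodic_all`: local periodicity and a scaling map give invariance.
`I3`: the statement for an equivariant matrix valued function `π` of a cocycle `c`; `T` is the
generator `u_(p^l)` of a small subgroup of the root group, `A₀` the kernel of the root (its
invariant functions are `T`-invariant: the root is in `Σ*`), `b` an element expanding the root group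
by the factor `p`.
-/

open MeasureTheory Filter Matrix
open scoped Topology ENNReal

set_option linter.unusedSectionVars false

namespace Pool.Agent.H93.DI

open Pool.Agent.H23.DM

noncomputable section

section

variable {X κ : Type} [MeasurableSpace X] [Fintype κ] [DecidableEq κ]

/-- Invariance from local periodicity and scaling. -/
theorem periodic_all {μ : Measure X} [IsProbabilityMeasure μ] {T : X → X}
    (hT : MeasurePreserving T μ μ) {s : X → κ → ℝ}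
    (hs : ∀ i, Measurable fun x => s x i) (p : ℕ)
    (hper : ∀ ε : ℝ, 0 < ε → ∃ j, μ {x | ∃ t : ℕ, s (T^[p ^ j * t] x) ≠ s x} ≤ ENNReal.ofReal ε)
    {a : X → X} (ha : MeasurePreserving a μ μ)
    (hsc : ∀ᵐ x ∂μ, ∃ Φ Ψ : Matrix κ κ ℝ, ∀ n : ℕ,
      s (T^[n] (a x)) = Φ *ᵥ s (T^[p * n] x) ∧ s (T^[p * n] x) = Ψ *ᵥ s (T^[n] (a x))) :
    ∀ᵐ x ∂μ, ∀ t : ℕ, s (T^[t] x) = s x := by
  let B : ℕ → Set X := fun j => {x | ∃ t : ℕ, s (T^[p ^ j * t] x) ≠ s x}
  have hBm : ∀ j, MeasurableSet (B j) := by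
    intro j
    have h1 : B j = ⋃ t : ℕ, ⋃ i : κ, {x | s (T^[p ^ j * t] x) i ≠ s x i} := by
      ext x
      simp only [B, Set.mem_iUnion]
      constructor
      · rintro ⟨t, ht⟩
        obtain ⟨i, hi⟩ := Function.ne_iff.1 ht
        exact ⟨t, i, hi⟩
      · rintro ⟨t, i, hi⟩
        exact ⟨t, Function.ne_iff.2 ⟨i, hi⟩⟩
    rw [h1]
    refine MeasurableSet.iUnion fun t => MeasurableSet.iUnion fun i => ?_
    exact (measurableSet_eq_fun ((hs i).comp (hT.measurable.iterate _)) (hs i)).compl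
  have hstep : ∀ j, μ (B (j + 1)) = μ (B j) := by
    intro j
    have h1 : B (j + 1) =ᵐ[μ] a ⁻¹' B j := by
      filter_upwards [hsc] with x hx
      obtain ⟨Φ, Ψ, h2⟩ := hx
      have h3 : x ∈ B (j + 1) ↔ a x ∈ B j := by
        have e0 := h2 0
        simp only [Function.iterate_zero, id_eq, mul_zero] at e0
        constructor
        · rintro ⟨t, ht⟩
          refine ⟨t, fun hcon => ht ?_⟩
          have e1 := (h2 (p ^ j * t)).2
          rw [← mul_assoc, ← pow_succ'] at e1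
          rw [e1, hcon, ← e0.2]
        · rintro ⟨t, ht⟩
          refine ⟨t, fun hcon => ht ?_⟩
          have e1 := (h2 (p ^ j * t)).1
          rw [← mul_assoc, ← pow_succ'] at e1
          rw [e1, hcon, ← e0.1]
      exact propext h3
    rw [measure_congr h1]
    exact ha.measure_preimage (hBm j).nullMeasurableSet
  have hconst : ∀ j, μ (B j) = μ (B 0) := by
    intro j
    induction j with
    | zero => rfl
    | succ j ih => rw [hstep, ih]
  have h0 : μ (B 0) = 0 := by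
    refine le_antisymm ?_ bot_le
    refine le_of_forall_pos_le_add fun ε hε => ?_
    rw [zero_add]
    by_cases htop : ε = ⊤
    · rw [htop]; exact le_top
    have hε' : 0 < ε.toReal := ENNReal.toReal_pos hε.ne' htop
    obtain ⟨j, hj⟩ := hper ε.toReal hε'
    rw [ENNReal.ofReal_toReal htop] at hj
    rw [← hconst j]
    exact hj
  have h1 : ∀ᵐ x ∂μ, x ∉ B 0 := measure_eq_zero_iff_ae_notMem.1 h0
  filter_upwards [h1] with x hx t
  by_contra hcon
  refine hx ⟨t, ?_⟩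
  rw [pow_zero, one_mul]
  exact hcon

end

variable {A X ι : Type} [CommGroup A] [MulAction A X] [Fintype ι] [DecidableEq ι]
  [MeasurableSpace X] {μ : Measure X}

/-- The vector of the entries of a matrix. -/
def vec (M : Matrix ι ι ℝ) : ι × ι → ℝ := fun q => M q.1 q.2

/-- The matrix of `M ↦ P M Q`. -/
def conj (P Q : Matrix ι ι ℝ) : Matrix (ι × ι) (ι × ι) ℝ := fun q r => P q.1 r.1 * Q r.2 q.2

theorem conj_mulVec (P Q M : Matrix ι ι ℝ) : conj P Q *ᵥ vec M = vec (P * M * Q) := by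
  funext q
  simp only [mulVec, dotProduct, conj, vec, Matrix.mul_apply, Fintype.sum_prod_type, Finset.sum_mul]
  rw [Finset.sum_comm]
  refine Finset.sum_congr rfl fun k _ => Finset.sum_congr rfl fun l _ => ?_
  ring

theorem vec_inj {M N : Matrix ι ι ℝ} (h : vec M = vec N) : M = N := by
  ext i j
  exact congrFun h (i, j)

/-- conjugation of an equivariant function -/
theorem equiv_conj (hE : Sys A X μ) (c : Coc A X ι μ) {π : X → Matrix ι ι ℝ}
    (hcomm : ∀ a : A, ∀ᵐ x ∂μ, c.D a x * π x = π (a • x) * c.D a x)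
    (hone : ∀ᵐ x ∂μ, π x * c.D 1 x = π x) (a : A) :
    ∀ᵐ x ∂μ, π (a • x) = c.D a x * π x * c.D a⁻¹ (a • x) ∧
      π x = c.D a⁻¹ (a • x) * π (a • x) * c.D a x := by
  have h1 : ∀ a : A, ∀ᵐ x ∂μ, π (a • x) = c.D a x * π x * c.D a⁻¹ (a • x) := by
    intro a
    filter_upwards [hcomm a, Coc.D_mul_inv hE c a, hE.ae_smul a hone] with x g1 g2 g3
    rw [g1, Matrix.mul_assoc, g2, g3]
  filter_upwards [h1 a, hE.ae_smul a (h1 a⁻¹)] with x g1 g2
  rw [inv_smul_smul, inv_inv] at g2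
  exact ⟨g1, g2⟩

/-- **(I3)** -/
theorem I3 (hE : Sys A X μ) (c : Coc A X ι μ) {π : X → Matrix ι ι ℝ} (hπ : MM π)
    (hcomm : ∀ a : A, ∀ᵐ x ∂μ, c.D a x * π x = π (a • x) * c.D a x)
    (hone : ∀ᵐ x ∂μ, π x * c.D 1 x = π x)
    {T : X → X} (hT : MeasurePreserving T μ μ) (A₀ : Subgroup A)
    (hA₀ : ∀ a ∈ A₀, ∀ x, a • T x = T (a • x))
    (hD₀ : ∀ a ∈ A₀, ∀ᵐ x ∂μ, ∀ n : ℕ, c.D a (T^[n] x) = c.D a x)
    (hinv : ∀ f : X → ℝ, Measurable f → (∃ C : ℝ, ∀ x, |f x| ≤ C) →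
      (∀ a ∈ A₀, ∀ᵐ x ∂μ, f (a • x) = f x) → ∀ᵐ x ∂μ, f (T x) = f x)
    (p : ℕ)
    (hcont : ∀ f : X → ℝ, Measurable f → ∀ ε : ℝ, 0 < ε → ∃ j₀, ∀ j, j₀ ≤ j → ∀ t : ℕ,
      μ {x | ε < |f (T^[p ^ j * t] x) - f x|} ≤ ENNReal.ofReal ε)
    (b : A) (hb : ∀ x, b • T^[p] x = T (b • x))
    (hDb : ∀ᵐ x ∂μ, ∀ n : ℕ, c.D b (T^[p * n] x) = c.D b x)
    (hDb' : ∀ᵐ x ∂μ, ∀ n : ℕ, c.D b⁻¹ (T^[n] x) = c.D b⁻¹ x) :
    ∀ᵐ x ∂μ, ∀ t : ℕ, π (T^[t] x) = π x := by
  have : IsProbabilityMeasure μ := hE.prob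
  have hs : ∀ q : ι × ι, Measurable fun x => vec (π x) q := fun q => hπ q.1 q.2
  have hconj := equiv_conj hE c hcomm hone
  have hiter : ∀ a ∈ A₀, ∀ (n : ℕ) x, T^[n] (a • x) = a • T^[n] x := by
    intro a ha n
    induction n with
    | zero => intro x; rfl
    | succ n ih =>
      intro x
      rw [Function.iterate_succ_apply', Function.iterate_succ_apply', ih, hA₀ a ha]
  have hiterb : ∀ (n : ℕ) x, T^[n] (b • x) = b • T^[p * n] x := by
    intro n
    induction n with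
    | zero => intro x; simp
    | succ n ih =>
      intro x
      rw [Function.iterate_succ_apply', ih, ← hb, ← Function.iterate_add_apply, mul_add, mul_one,
        add_comm p]
  have hlin : ∀ f ∈ {f : X → X | ∃ a ∈ A₀, f = fun x => a • x}, ∀ᵐ x ∂μ,
      ∃ Φ Ψ : Matrix (ι × ι) (ι × ι) ℝ, ∀ n : ℕ,
      vec (π (T^[n] (f x))) = Φ *ᵥ vec (π (T^[n] x)) ∧
        vec (π (T^[n] x)) = Ψ *ᵥ vec (π (T^[n] (f x))) := by
    rintro f ⟨a, ha, rfl⟩
    have h1 : ∀ᵐ x ∂μ, ∀ n : ℕ, π (a • T^[n] x) =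
        c.D a (T^[n] x) * π (T^[n] x) * c.D a⁻¹ (a • T^[n] x) ∧
        π (T^[n] x) = c.D a⁻¹ (a • T^[n] x) * π (a • T^[n] x) * c.D a (T^[n] x) := by
      rw [ae_all_iff]
      intro n
      exact (hT.iterate n).quasiMeasurePreserving.ae (hconj a)
    filter_upwards [h1, hD₀ a ha, hE.ae_smul a (hD₀ a⁻¹ (A₀.inv_mem ha))] with x g1 g2 g3
    refine ⟨conj (c.D a x) (c.D a⁻¹ (a • x)), conj (c.D a⁻¹ (a • x)) (c.D a x), fun n => ?_⟩
    obtain ⟨k1, k2⟩ := g1 n
    rw [g2 n, ← hiter a ha, g3 n] at k1 k2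
    rw [conj_mulVec, conj_mulVec]
    exact ⟨congrArg vec k1, congrArg vec k2⟩
  have hper := locally_periodic hT hs {f : X → X | ∃ a ∈ A₀, f = fun x => a • x}
    (fun f hf hb' h => hinv f hf hb' fun a ha => h _ ⟨a, ha, rfl⟩) hlin (fun j => p ^ j) hcont
  have hsc : ∀ᵐ x ∂μ, ∃ Φ Ψ : Matrix (ι × ι) (ι × ι) ℝ, ∀ n : ℕ,
      vec (π (T^[n] (b • x))) = Φ *ᵥ vec (π (T^[p * n] x)) ∧
        vec (π (T^[p * n] x)) = Ψ *ᵥ vec (π (T^[n] (b • x))) := by
    have h1 : ∀ᵐ x ∂μ, ∀ n : ℕ, π (b • T^[p * n] x) =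
        c.D b (T^[p * n] x) * π (T^[p * n] x) * c.D b⁻¹ (b • T^[p * n] x) ∧
        π (T^[p * n] x) = c.D b⁻¹ (b • T^[p * n] x) * π (b • T^[p * n] x) * c.D b (T^[p * n] x) := by
      rw [ae_all_iff]
      intro n
      exact (hT.iterate (p * n)).quasiMeasurePreserving.ae (hconj b)
    filter_upwards [h1, hDb, hE.ae_smul b hDb'] with x g1 g2 g3
    refine ⟨conj (c.D b x) (c.D b⁻¹ (b • x)), conj (c.D b⁻¹ (b • x)) (c.D b x), fun n => ?_⟩
    obtain ⟨k1, k2⟩ := g1 n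
    rw [g2 n, ← hiterb, g3 n] at k1 k2
    rw [conj_mulVec, conj_mulVec]
    exact ⟨congrArg vec k1, congrArg vec k2⟩
  have hfin := periodic_all hT hs p hper (hE.mp b) hsc
  filter_upwards [hfin] with x hx t
  exact vec_inj (hx t)

end

end Pool.Agent.H93.DI
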